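import Mathlib
import Pool.Agent.W666.DY.Final
import Pool.Agent.Y642.LZ.G

/-!
# Iterates of an integer polynomial and zeros in local places
-/

set_option autoImplicit false

open Finset Polynomial Module

universe u

namespace Pool.Agent.Y642.DL

open Pool.Agent.H388SL Pool.Agent.H389R3.LR Pool.Agent.H389R3.LP Pool.Agent.W666.DL
  Pool.Agent.W666.DY Pool.Agent.Y642.LZ

section

variable {A : Type*} [CommRing A] [IsDomain A]

open Classical in
/-- collisions by counting classes -/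
lemma sq_le_coll' {π : A} [Finite (A ⧸ Ideal.span {π})] (T : Finset A) :
    (T.card : ℝ) ^ 2 ≤ (Nat.card (A ⧸ Ideal.span {π}) : ℝ) * (coll π T + T.card) := by
  have : Fintype (A ⧸ Ideal.span {π}) := Fintype.ofFinite _
  set f : A → A ⧸ Ideal.span {π} := fun a => Ideal.Quotient.mk (Ideal.span {π}) a with hf
  have hfeq : ∀ s w : A, f s = f w ↔ π ∣ s - w := by
    intro s w
    rw [hf]
    dsimp only
    rw [Ideal.Quotient.eq, Ideal.mem_span_singleton]
  set I : Finset (A ⧸ Ideal.span {π}) := Finset.univ with hI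
  have hmaps : ∀ s ∈ T, f s ∈ I := fun s hs => Finset.mem_univ _
  have hIcard : (I.card : ℝ) = (Nat.card (A ⧸ Ideal.span {π}) : ℝ) := by
    rw [hI, Finset.card_univ, Nat.card_eq_fintype_card]
  have h1 : (T.card : ℝ) = ∑ b ∈ I, ((T.filter fun s => f s = b).card : ℝ) := by
    have := Finset.card_eq_sum_card_fiberwise (f := f) (s := T) (t := I) (fun s hs => hmaps s hs)
    rw [this]; push_cast; rfl
  have h2 : ((∑ s ∈ T, (T.filter fun w => f w = f s).card : ℕ) : ℝ) =
      ∑ b ∈ I, ((T.filter fun s => f s = b).card : ℝ) ^ 2 := by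
    rw [← Finset.sum_fiberwise_of_maps_to (s := T) (t := I) (g := f) hmaps]
    push_cast
    refine Finset.sum_congr rfl fun b hb => ?_
    have h3 : ∀ s ∈ T.filter (fun s => f s = b),
        ((T.filter fun w => f w = f s).card : ℝ) = ((T.filter fun s => f s = b).card : ℝ) := by
      intro s hs
      rw [(Finset.mem_filter.mp hs).2]
    rw [Finset.sum_congr rfl h3, Finset.sum_const, nsmul_eq_mul, sq]
  have h3 : (∑ s ∈ T, (T.filter fun w => f w = f s).card) = coll π T + T.card := by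
    unfold coll
    rw [Finset.card_eq_sum_ones, ← Finset.sum_add_distrib]
    refine Finset.sum_congr rfl fun s hs => ?_
    have h4 : T.filter (fun w => f w = f s) =
        insert s ((T.erase s).filter fun w => π ∣ s - w) := by
      ext w
      rw [Finset.mem_filter, Finset.mem_insert, Finset.mem_filter, Finset.mem_erase]
      constructor
      · rintro ⟨hw, hfw⟩
        by_cases hws : w = s
        · exact Or.inl hws
        · exact Or.inr ⟨⟨hws, hw⟩, (hfeq s w).mp hfw.symm⟩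
      · rintro (rfl | ⟨⟨_, hw⟩, hd⟩)
        · exact ⟨hs, rfl⟩
        · exact ⟨hw, ((hfeq s w).mpr hd).symm⟩
    rw [h4, Finset.card_insert_of_notMem (by simp)]
  rw [h3] at h2
  have h5 := sq_sum_le_card_mul_sum_sq (s := I) (f := fun b => ((T.filter fun s => f s = b).card : ℝ))
  rw [← h1, hIcard, ← h2] at h5
  push_cast at h5
  exact h5

end

section

variable {K : Type*} [Field K] [NumberField K] {A : Type u} [CommRing A] [IsDomain A] [CharZero A]

lemma iter_mem_aRoots (f : ℤ[X]) {β : K} (hβ : IsIntegral ℤ β) {x : A} (hx : x ∈ aRoots A β)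
    (m : ℕ) : (ph f)^[m] x ∈ aRoots A ((ph f)^[m] β) := by
  rw [mem_aRoots hβ] at hx
  rw [mem_aRoots (integral_ph hβ f m)]
  have h1 : aeval β ((minpoly ℤ ((ph f)^[m] β)).comp (itp f m)) = 0 := by
    rw [aeval_comp]
    have h2 : aeval β (itp f m) = (ph f)^[m] β := ph_itp f m β
    rw [h2, minpoly.aeval]
  obtain ⟨g, hg⟩ := minpoly.isIntegrallyClosed_dvd hβ h1
  have h2 : aeval x ((minpoly ℤ ((ph f)^[m] β)).comp (itp f m)) = 0 := by
    rw [hg, map_mul, hx, zero_mul]
  rw [aeval_comp] at h2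
  have h3 : aeval x (itp f m) = (ph f)^[m] x := ph_itp f m x
  rwa [h3] at h2

open Classical in
/-- the first `k` points of the orbits of the elements of `Z` -/
noncomputable def orbSet {A : Type u} [CommRing A] (f : ℤ[X]) (Z : Finset A) (k : ℕ) : Finset A :=
  (Finset.range k ×ˢ Z).image (fun x => (ph f)^[x.1] x.2)

/-- no two elements of `Z` have the same image under an iterate -/
def IterFree {A : Type u} [CommRing A] (f : ℤ[X]) (Z : Finset A) : Prop :=
  ∀ x ∈ Z, ∀ y ∈ Z, ∀ m : ℕ, (ph f)^[m] x = (ph f)^[m] y → x = y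

lemma conjSet_ne (f : ℤ[X]) {α : K} (hw : Function.Injective fun n : ℕ => (ph f)^[n] α) {i j : ℕ}
    (hij : i ≠ j) : Disjoint (conjSet ((ph f)^[i] α)) (conjSet ((ph f)^[j] α)) := by
  rw [Finset.disjoint_left]
  intro z h1 h2
  obtain ⟨σ, hσ⟩ := mem_conjSet.mp h1
  obtain ⟨τ, hτ⟩ := mem_conjSet.mp h2
  rcases lt_or_gt_of_ne hij with h | h
  · exact conj_ne_dyn f hw h τ σ (hτ.trans hσ.symm)
  · exact conj_ne_dyn f hw h σ τ (hσ.trans hτ.symm)

lemma conjSet_nonempty (β : K) : (conjSet β).Nonempty := by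
  have hne : (Finset.univ : Finset (K →ₐ[ℚ] ℂ)).Nonempty := by
    rw [← Finset.card_pos, Finset.card_univ, AlgHom.card]
    exact finrank_pos
  obtain ⟨σ, _⟩ := hne
  exact ⟨σ β, mem_conjSet.mpr ⟨σ, rfl⟩⟩

lemma orbSet_card (f : ℤ[X]) {α : K} (hα : IsIntegral ℤ α)
    (hw : Function.Injective fun n : ℕ => (ph f)^[n] α) {Z : Finset A}
    (hZ : ∀ x ∈ Z, x ∈ aRoots A α) (hZt : IterFree f Z) (k : ℕ) :
    (orbSet f Z k).card = k * Z.card := by
  classical
  have h1 : (Finset.range k ×ˢ Z).card = k * Z.card := by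
    rw [Finset.card_product, Finset.card_range]
  rw [← h1]
  unfold orbSet
  refine Finset.card_image_of_injOn ?_
  rintro ⟨m, x⟩ hx ⟨l, y⟩ hy hxy
  rw [Finset.mem_coe, Finset.mem_product] at hx hy
  dsimp only at hx hy hxy
  have hml : m = l := by
    by_contra hne
    have e1 := iter_mem_aRoots f hα (hZ x hx.2) m
    have e2 := iter_mem_aRoots f hα (hZ y hy.2) l
    rw [← hxy] at e2
    have e3 := conjSet_eq_of_aRoots (integral_ph hα f m) (integral_ph hα f l) e1 e2
    have e4 := conjSet_ne f hw hne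
    rw [e3, Finset.disjoint_self_iff_empty] at e4
    exact (conjSet_nonempty _).ne_empty e4
  subst hml
  rw [hZt x hx.2 y hy.2 m hxy]

end

variable {K : Type*} [Field K] [NumberField K]

/-- the contribution of one place -/
lemma place_bound (f : ℤ[X]) {α : K} (hα : IsIntegral ℤ α)
    (hw : Function.Injective fun n : ℕ => (ph f)^[n] α)
    (D : Loc.{u}) {Y : Finset D.A} (hY : ∀ x ∈ Y, x ∈ aRoots D.A α) (hYt : IterFree f Y)
    (k : ℕ) (Q : ℤ[X]) (hQm : Q.Monic)
    (hQ : Q = ∏ m ∈ Finset.range k, minpoly ℤ ((ph f)^[m] α)) {r : ℤ}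
    (hr : r = resultant Q (derivative Q) Q.natDegree (derivative Q).natDegree) (hr0 : r ≠ 0) :
    ((k : ℝ) ^ 2 * ((Y.card : ℝ) ^ 2 / (D.q : ℝ)) - k * Y.card) / D.e * Real.log D.p ≤
      (padicValInt D.p r : ℝ) * Real.log D.p := by
  classical
  set T := orbSet f Y k with hT
  have hTroot : ∀ x ∈ T, (Q.map (Int.castRingHom D.A)).eval x = 0 := by
    intro x hx
    rw [hT] at hx
    unfold orbSet at hx
    rw [Finset.mem_image] at hx
    obtain ⟨⟨m, y⟩, hmy, rfl⟩ := hx
    rw [Finset.mem_product] at hmy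
    have h1 := iter_mem_aRoots f hα (hY _ hmy.2) m
    rw [mem_aRoots (integral_ph hα f m)] at h1
    rw [hQ, Polynomial.map_prod, eval_prod]
    refine Finset.prod_eq_zero hmy.1 ?_
    rw [eval_map]
    exact h1
  have h1 := dvd_res_gen D.π Q hQm T hTroot
  rw [← hr] at h1
  have h2 := val_le D.notUnit D.hp D.he D.assoc hr0 h1
  have h3 := sq_le_coll' (π := D.π) T
  have h4 := orbSet_card (A := D.A) f hα hw hY hYt k
  rw [← hT] at h4
  have hq2 : (2 : ℝ) ≤ D.q := by exact_mod_cast D.two_le_q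
  have hq : (Nat.card (D.A ⧸ Ideal.span {D.π}) : ℝ) = D.q := rfl
  rw [hq] at h3
  have hq1 : (0:ℝ) < (D.q : ℝ) := by linarith
  have he0 : (0:ℝ) < D.e := by exact_mod_cast D.he
  have hp1 : (1:ℝ) < D.p := by exact_mod_cast D.hp.one_lt
  have hlog : 0 < Real.log D.p := Real.log_pos hp1
  have h4' : (T.card : ℝ) = k * Y.card := by exact_mod_cast h4
  have h7 : (k : ℝ) ^ 2 * ((Y.card : ℝ) ^ 2 / (D.q : ℝ)) - k * Y.card ≤
      (coll D.π T : ℝ) := by
    have h8 : (k : ℝ) ^ 2 * ((Y.card : ℝ) ^ 2 / (D.q : ℝ)) ≤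
        coll D.π T + T.card := by
      rw [← mul_div_assoc, div_le_iff₀ hq1]
      rw [h4'] at h3 ⊢
      nlinarith
    rw [h4'] at h8
    linarith
  have h2' : (coll D.π T : ℝ) ≤ D.e * padicValInt D.p r := by exact_mod_cast h2
  refine mul_le_mul_of_nonneg_right ?_ hlog.le
  rw [div_le_iff₀ he0]
  linarith

/-- the sum of the Green function over the conjugates of an iterate -/
lemma sum_green (f : ℤ[X]) {G : ℂ → ℝ} (hG0 : ∀ z, 0 ≤ G z)
    (hG2 : ∀ z : ℂ, G (aeval z f) = f.natDegree * G z) (α : K) (m : ℕ) :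
    ∑ z ∈ conjSet ((ph f)^[m] α), G z ≤ (minpoly ℚ α).natDegree *
      ((f.natDegree : ℝ) ^ m * ((∑ σ : K →ₐ[ℚ] ℂ, G (σ α)) / finrank ℚ K)) := by
  classical
  set β := (ph f)^[m] α with hβ
  have hD0 : (0:ℝ) < finrank ℚ K := by exact_mod_cast (finrank_pos : 0 < finrank ℚ K)
  -- the sum over the conjugates, with multiplicity
  have h1 : (rr β : ℝ) * ∑ z ∈ conjSet β, G z ≤ ∑ σ : K →ₐ[ℚ] ℂ, G (σ β) := by
    rw [sum_embeddings' β G, nsmul_eq_mul]
    refine mul_le_mul_of_nonneg_left ?_ (Nat.cast_nonneg _)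
    have h2 : conjSet β ⊆ conjSet (IntermediateField.AdjoinSimple.gen ℚ β) := by
      apply Finset.Subset.antisymm_iff.mp _ |>.1
      apply Finset.coe_injective
      rw [conjSet_coe, conjSet_coe, minpolyQ_gen]
    refine (Finset.sum_le_sum_of_subset_of_nonneg h2 fun z _ _ => hG0 z).trans ?_
    exact sum_conjSet_le _ G hG0
  have h2 : ∑ σ : K →ₐ[ℚ] ℂ, G (σ β) = (f.natDegree : ℝ) ^ m * ∑ σ : K →ₐ[ℚ] ℂ, G (σ α) := by
    rw [Finset.mul_sum]
    refine Finset.sum_congr rfl fun σ _ => ?_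
    have h3 : σ β = (ph f)^[m] (σ α) := ph_hom (σ : K →+* ℂ) f m α
    rw [h3]
    exact G_iter hG2 m (σ α)
  have h3 := rr_mul_natDegree β
  have h4 := rr_mul_natDegree α
  have hrr : rr α ≤ rr β := by
    have h5 : IntermediateField.adjoin ℚ {β} ≤ IntermediateField.adjoin ℚ {α} := by
      rw [IntermediateField.adjoin_simple_le_iff]
      have h6 : aeval α (itp f m) = β := ph_itp f m α
      rw [← h6]
      have h7 : aeval α (itp f m) = algebraMap (IntermediateField.adjoin ℚ {α}) K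
          (aeval (IntermediateField.AdjoinSimple.gen ℚ α) (itp f m)) := by
        rw [← aeval_algebraMap_apply, IntermediateField.AdjoinSimple.algebraMap_gen]
      rw [h7]
      exact (aeval (IntermediateField.AdjoinSimple.gen ℚ α) (itp f m)).2
    have h6 : (minpoly ℚ β).natDegree ≤ (minpoly ℚ α).natDegree := by
      have h7 := IntermediateField.adjoin.finrank (Algebra.IsIntegral.isIntegral (R := ℚ) β)
      have h8 := IntermediateField.adjoin.finrank (Algebra.IsIntegral.isIntegral (R := ℚ) α)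
      rw [← h7, ← h8]
      exact IntermediateField.finrank_le_of_le_right h5
    by_contra hcon
    push Not at hcon
    have h7 : 0 < (minpoly ℚ α).natDegree :=
      minpoly.natDegree_pos (Algebra.IsIntegral.isIntegral (R := ℚ) α)
    have h8 : rr β * (minpoly ℚ β).natDegree < rr α * (minpoly ℚ α).natDegree :=
      Nat.mul_lt_mul_of_lt_of_le hcon h6 h7
    omega
  have hra : (0:ℝ) < rr α := by exact_mod_cast rr_pos α
  have hrr' : (rr α : ℝ) ≤ rr β := by exact_mod_cast hrr
  have hS0 : 0 ≤ ∑ z ∈ conjSet β, G z := Finset.sum_nonneg fun z _ => hG0 z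
  have h5 : (rr α : ℝ) * ∑ z ∈ conjSet β, G z ≤
      (f.natDegree : ℝ) ^ m * ∑ σ : K →ₐ[ℚ] ℂ, G (σ α) := by
    rw [← h2]
    exact (mul_le_mul_of_nonneg_right hrr' hS0).trans h1
  have h6 : (finrank ℚ K : ℝ) = rr α * (minpoly ℚ α).natDegree := by exact_mod_cast h4.symm
  have h7 : (0:ℝ) < (minpoly ℚ α).natDegree := by
    exact_mod_cast minpoly.natDegree_pos (Algebra.IsIntegral.isIntegral (R := ℚ) α)
  rw [h6]
  have h8 : ((minpoly ℚ α).natDegree : ℝ) * ((f.natDegree : ℝ) ^ m *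
      ((∑ σ : K →ₐ[ℚ] ℂ, G (σ α)) / (rr α * (minpoly ℚ α).natDegree))) =
      ((f.natDegree : ℝ) ^ m * ∑ σ : K →ₐ[ℚ] ℂ, G (σ α)) / rr α := by
    field_simp
  rw [h8, le_div_iff₀ hra]
  linarith

end Pool.Agent.Y642.DL
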