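import Mathlib
import Pool.Agent.Y642.DL.A

/-!
# The main inequality for the iterates
-/

set_option autoImplicit false

open Finset Polynomial Module

universe u

namespace Pool.Agent.Y642.DL

open Pool.Agent.H388SL Pool.Agent.H389R3.LR Pool.Agent.H389R3.LP Pool.Agent.W666.DL
  Pool.Agent.W666.DY Pool.Agent.Y642.LZ

variable {K : Type*} [Field K] [NumberField K]

lemma deg_iter_le (f : ℤ[X]) (α : K) (m : ℕ) :
    (minpoly ℚ ((ph f)^[m] α)).natDegree ≤ (minpoly ℚ α).natDegree := by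
  set β := (ph f)^[m] α with hβ
  have h5 : IntermediateField.adjoin ℚ {β} ≤ IntermediateField.adjoin ℚ {α} := by
    rw [IntermediateField.adjoin_simple_le_iff]
    have h6 : aeval α (itp f m) = β := ph_itp f m α
    rw [← h6]
    have h7 : aeval α (itp f m) = algebraMap (IntermediateField.adjoin ℚ {α}) K
        (aeval (IntermediateField.AdjoinSimple.gen ℚ α) (itp f m)) := by
      rw [← aeval_algebraMap_apply, IntermediateField.AdjoinSimple.algebraMap_gen]
    rw [h7]
    exact (aeval (IntermediateField.AdjoinSimple.gen ℚ α) (itp f m)).2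
  have h7 := IntermediateField.adjoin.finrank (Algebra.IsIntegral.isIntegral (R := ℚ) β)
  have h8 := IntermediateField.adjoin.finrank (Algebra.IsIntegral.isIntegral (R := ℚ) α)
  rw [← h7, ← h8]
  exact IntermediateField.finrank_le_of_le_right h5

lemma card_conjSet {β : K} (hβ : IsIntegral ℤ β) :
    (conjSet β).card = (minpoly ℚ β).natDegree := by
  have h1 := congrArg Polynomial.natDegree (minpolyZ_map hβ)
  rw [natDegree_prod_of_monic _ _ (fun z _ => monic_X_sub_C z)] at h1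
  simp only [natDegree_X_sub_C, Finset.sum_const, smul_eq_mul, mul_one] at h1
  rw [← h1, (minpoly.monic hβ).natDegree_map, minpoly.isIntegrallyClosed_eq_field_fractions' ℚ hβ,
    (minpoly.monic hβ).natDegree_map]

/-- the canonical height of an algebraic integer in terms of the Green function -/
noncomputable def hG (G : ℂ → ℝ) (α : K) : ℝ := (∑ σ : K →ₐ[ℚ] ℂ, G (σ α)) / finrank ℚ K

lemma natlog_le {N : ℕ} (hN : 1 ≤ N) : (Nat.log 2 N : ℝ) ≤ 2 * Real.log N := by
  have h1 : 2 ^ Nat.log 2 N ≤ N := Nat.pow_log_le_self 2 (by omega)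
  have h2 : ((2:ℝ) ^ Nat.log 2 N) ≤ N := by exact_mod_cast h1
  have h3 := Real.log_le_log (by positivity) h2
  rw [Real.log_pow] at h3
  have h4 := Real.log_two_gt_d9
  have h5 : (0:ℝ) ≤ Nat.log 2 N := Nat.cast_nonneg _
  nlinarith

theorem main_ineq (f : ℤ[X]) (hf : f.Monic) (hq : 2 ≤ f.natDegree) {G : ℂ → ℝ} {C : ℝ}
    (hC : 0 ≤ C) (hG0 : ∀ z, 0 ≤ G z) (hG1 : ∀ z : ℂ, Real.posLog ‖z‖ ≤ G z + C)
    (hG2 : ∀ z : ℂ, G (aeval z f) = f.natDegree * G z)
    {α : K} (hα : IsIntegral ℤ α) (hw : Function.Injective fun n : ℕ => (ph f)^[n] α)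
    {ι : Type*} (s : Finset ι) (D : ι → Loc.{u}) (hinj : Set.InjOn (fun i => (D i).p) s)
    (Y : ∀ i, Finset (D i).A) (hY : ∀ i ∈ s, ∀ x ∈ Y i, x ∈ aRoots (D i).A α)
    (hYt : ∀ i ∈ s, IterFree f (Y i)) (k : ℕ) (hk : 1 ≤ k) (n : ℕ)
    (hn : n = (minpoly ℚ α).natDegree) :
    (k : ℝ) * ∑ i ∈ s, ((Y i).card : ℝ) ^ 2 / ((D i).q : ℝ) / (D i).e * Real.log (D i).p ≤
      ∑ i ∈ s, ((Y i).card : ℝ) / (D i).e * Real.log (D i).p +
      (2 + 4 * (f.natDegree * C)) * (n * (1 + Real.log (n * k))) +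
      2 * (n ^ 2 * (f.natDegree ^ k * hG G α)) := by
  classical
  set Z : Finset ℂ := (Finset.range k).biUnion fun m => conjSet ((ph f)^[m] α) with hZ
  set d := f.natDegree with hd
  have hd2 : (2:ℝ) ≤ d := by exact_mod_cast hq
  have hn0 : 0 < n := by
    rw [hn]; exact minpoly.natDegree_pos (Algebra.IsIntegral.isIntegral (R := ℚ) α)
  have hdisj : Set.PairwiseDisjoint (↑(Finset.range k)) (fun m => conjSet ((ph f)^[m] α)) := by
    intro m _ l _ hml
    exact conjSet_ne f hw hml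
  set Q : ℤ[X] := ∏ m ∈ Finset.range k, minpoly ℤ ((ph f)^[m] α) with hQ
  have hQm : Q.Monic := monic_prod_of_monic _ _ fun m _ => minpoly.monic (integral_ph hα f m)
  have hQmap : Q.map (Int.castRingHom ℂ) = ∏ z ∈ Z, (X - Polynomial.C z) := by
    rw [hQ, Polynomial.map_prod, hZ, Finset.prod_biUnion hdisj]
    exact Finset.prod_congr rfl fun m _ => minpolyZ_map (integral_ph hα f m)
  obtain ⟨hr0, hdsum⟩ := disc_sum Q Z hQmap
  have hZne : Z.Nonempty := by
    obtain ⟨z, hz⟩ := conjSet_nonempty ((ph f)^[0] α)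
    exact ⟨z, Finset.mem_biUnion.mpr ⟨0, Finset.mem_range.mpr (by omega), hz⟩⟩
  -- the local contributions
  set r : ℤ := resultant Q (derivative Q) Q.natDegree (derivative Q).natDegree with hr
  set W : ℝ := ∑ i ∈ s, ((Y i).card : ℝ) / (D i).e * Real.log (D i).p with hW
  set S : ℝ := ∑ i ∈ s, ((Y i).card : ℝ) ^ 2 /
    ((D i).q : ℝ) / (D i).e * Real.log (D i).p with hS
  have hdisc : (k : ℝ) ^ 2 * S - k * W ≤
      ∑ z ∈ Z, ∑ w ∈ Z, (if z = w then 0 else Real.log ‖z - w‖) := by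
    rw [hdsum]
    refine le_trans ?_ (log_ge s (fun i => (D i).p) (fun i _ => (D i).hp) hinj hr0)
    rw [hS, hW, Finset.mul_sum, Finset.mul_sum, ← Finset.sum_sub_distrib]
    refine Finset.sum_le_sum fun i hi => ?_
    refine le_trans (le_of_eq ?_) (place_bound f hα hw (D i) (hY i hi) (hYt i hi) k Q hQm hQ
      hr hr0)
    ring
  -- the energy
  have hE : ∑ z ∈ Z, ∑ w ∈ Z, (if z = w then 0 else Real.log ‖z - w‖) ≤
      2 * (Z.card * ∑ z ∈ Z, G z + Z.card *
        (Real.log Z.card + d * C * (Nat.log 2 Z.card + 1))) := by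
    have : Nonempty Z := hZne.to_subtype
    have h1 := energy_fintype f hf hq hC hG0 hG1 hG2 (fun z : Z => (z : ℂ))
      Subtype.val_injective
    rw [Fintype.card_coe, Finset.sum_coe_sort Z (fun z => G z)] at h1
    have h2 : ∑ i : Z, ∑ j : Z, Real.log ‖(i : ℂ) - (j : ℂ)‖ =
        ∑ z ∈ Z, ∑ w ∈ Z, (if z = w then 0 else Real.log ‖z - w‖) := by
      rw [← Finset.sum_coe_sort Z (fun z => ∑ w ∈ Z, (if z = w then 0 else Real.log ‖z - w‖))]
      refine Finset.sum_congr rfl fun z _ => ?_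
      rw [← Finset.sum_coe_sort Z (fun w => if (z : ℂ) = w then 0 else Real.log ‖(z : ℂ) - w‖)]
      refine Finset.sum_congr rfl fun w _ => ?_
      by_cases h : (z : ℂ) = w
      · rw [if_pos h, h, sub_self, norm_zero, Real.log_zero]
      · rw [if_neg h]
    rw [h2] at h1
    exact h1
  -- the number of elements
  have hcard : Z.card ≤ n * k := by
    rw [hZ]
    refine Finset.card_biUnion_le.trans ?_
    refine (Finset.sum_le_sum (g := fun _ => n) fun m _ => ?_).trans ?_
    · rw [card_conjSet (integral_ph hα f m), hn]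
      exact deg_iter_le f α m
    · rw [Finset.sum_const, Finset.card_range, smul_eq_mul, mul_comm]
  have hhG : 0 ≤ hG G α := div_nonneg (Finset.sum_nonneg fun σ _ => hG0 _) (Nat.cast_nonneg _)
  -- the heights
  have hgeo : ∑ m ∈ Finset.range k, (d : ℝ) ^ m ≤ (d : ℝ) ^ k := by
    have h1 : ∀ k : ℕ, ∑ m ∈ Finset.range k, (d : ℝ) ^ m ≤ (d : ℝ) ^ k - 1 := by
      intro k
      induction k with
      | zero => simp
      | succ k ih =>
        rw [Finset.sum_range_succ, pow_succ]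
        have : (0:ℝ) < (d:ℝ) ^ k := by positivity
        nlinarith
    linarith [h1 k]
  have hsum : ∑ z ∈ Z, G z ≤ n * (d ^ k * hG G α) := by
    rw [hZ, Finset.sum_biUnion hdisj]
    have h1 : ∀ m ∈ Finset.range k, ∑ z ∈ conjSet ((ph f)^[m] α), G z ≤
        n * ((d : ℝ) ^ m * hG G α) := by
      intro m _
      rw [hn]
      exact sum_green f hG0 hG2 α m
    refine (Finset.sum_le_sum h1).trans ?_
    rw [← Finset.mul_sum, ← Finset.sum_mul]
    exact mul_le_mul_of_nonneg_left (mul_le_mul_of_nonneg_right hgeo hhG) (Nat.cast_nonneg _)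
  have hcard' : (Z.card : ℝ) ≤ n * k := by exact_mod_cast hcard
  have hZc : 0 < Z.card := Finset.card_pos.mpr hZne
  have hnk : (1:ℝ) ≤ n * k := by
    have : 1 ≤ n * k := Nat.mul_pos hn0 hk
    exact_mod_cast this
  have hlogle : Real.log Z.card ≤ Real.log (n * k) :=
    Real.log_le_log (by exact_mod_cast hZc) hcard'
  have hlc : 0 ≤ Real.log Z.card := Real.log_natCast_nonneg _
  have hlog2 := natlog_le hZc
  set c : ℝ := d * C with hc
  have hc0 : 0 ≤ c := by positivity
  have hs0 : 0 ≤ ∑ z ∈ Z, G z := Finset.sum_nonneg fun z _ => hG0 z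
  have h1 : (Z.card : ℝ) * ∑ z ∈ Z, G z ≤ (n * k) * (n * (d ^ k * hG G α)) :=
    mul_le_mul hcard' hsum hs0 (by positivity)
  have h2 : Real.log Z.card + c * (Nat.log 2 Z.card + 1) ≤ (1 + 2 * c) * (1 + Real.log (n * k)) := by
    have h3 : c * (Nat.log 2 Z.card + 1) ≤ c * (2 * Real.log (n * k) + 1) :=
      mul_le_mul_of_nonneg_left (by linarith) hc0
    nlinarith
  have h4 : 0 ≤ Real.log Z.card + c * (Nat.log 2 Z.card + 1) := by positivity
  have h5 : (Z.card : ℝ) * (Real.log Z.card + c * (Nat.log 2 Z.card + 1)) ≤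
      (n * k) * ((1 + 2 * c) * (1 + Real.log (n * k))) :=
    mul_le_mul hcard' h2 h4 (by positivity)
  have hk0 : (0:ℝ) < k := by exact_mod_cast hk
  have h6 : (k : ℝ) * (k * S) ≤ (k : ℝ) * (W + (2 + 4 * c) * (n * (1 + Real.log (n * k))) +
      2 * (n ^ 2 * (d ^ k * hG G α))) := by
    nlinarith
  exact le_of_mul_le_mul_left h6 hk0

end Pool.Agent.Y642.DL
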