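import Mathlib
import Pool.Agent.Y642.DL.B

/-!
# Canonical heights and the choice of the number of iterates
-/

set_option autoImplicit false

open Finset Polynomial Module Filter Topology NumberField ValuativeRel IntermediateField

universe u v

namespace Pool.Agent.Y642.DL

open Pool.Agent.H388SL Pool.Agent.H389R3.LR Pool.Agent.H389R3.LP Pool.Agent.W666.DL
  Pool.Agent.W666.DY Pool.Agent.Y642.LZ

/-- the canonical height in terms of the Green function -/
lemma can_height {f : ℤ[X]} (hfm : f.Monic) (hq : 2 ≤ f.natDegree) {G : ℂ → ℝ}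
    (hGlim : ∀ z : ℂ, Tendsto (fun n : ℕ => Real.posLog ‖(fun x : ℂ => aeval x f)^[n] z‖ /
        (f.natDegree : ℝ) ^ n) atTop (𝓝 (G z)))
    {K : Type*} [Field K] [NumberField K] (α : K) :
    Tendsto (fun n : ℕ => Height.logHeight₁ ((ph f)^[n] α) /
          ((finrank ℚ K : ℝ) * (f.natDegree : ℝ) ^ n)) atTop
      (𝓝 ((∑ σ : K →ₐ[ℚ] ℂ, G (σ α) + HF α) / finrank ℚ K)) := by
  set D := finrank ℚ K with hD
  have hD0 : (0:ℝ) < D := by exact_mod_cast (finrank_pos : 0 < finrank ℚ K)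
  have hq0 : (0:ℝ) < f.natDegree := by exact_mod_cast (by omega : 0 < f.natDegree)
  have h1 : ∀ n : ℕ, Height.logHeight₁ ((ph f)^[n] α) / ((D : ℝ) * (f.natDegree : ℝ) ^ n) =
      (∑ σ : K →ₐ[ℚ] ℂ, Real.posLog ‖(fun x : ℂ => aeval x f)^[n] (σ α)‖ /
        (f.natDegree : ℝ) ^ n + HF α) / D := by
    intro n
    rw [NumberField.logHeight₁_eq, arch_eq]
    have h2 : ∑ᶠ v : FinitePlace K, Real.posLog (v ((ph f)^[n] α)) =
        (f.natDegree : ℝ) ^ n * HF α := HF_ph f hfm (by omega) α n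
    rw [h2]
    have h3 : ∀ σ : K →ₐ[ℚ] ℂ, σ ((ph f)^[n] α) = (fun x : ℂ => aeval x f)^[n] (σ α) :=
      fun σ => ph_hom (σ : K →+* ℂ) f n α
    simp_rw [h3]
    rw [← Finset.sum_div]
    field_simp
  simp_rw [h1]
  apply Tendsto.div_const
  apply Tendsto.add_const
  exact tendsto_finsetSum _ fun σ _ => hGlim (σ α)

/-- the choice of a bounded number of iterates -/
lemma choose_eps {A ε : ℝ} (hA : 0 < A) (hε : 0 < ε) : ∃ k : ℕ, 2 ≤ k ∧
    2 * A * (3 + 2 * Real.log k) ≤ (k - 1) * ε := by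
  set k : ℕ := ⌈(28 * A / ε) ^ 2⌉₊ + 2 with hk
  have hk2 : 2 ≤ k := by omega
  refine ⟨k, hk2, ?_⟩
  have hkr : (2:ℝ) ≤ k := by exact_mod_cast hk2
  have h1 : (28 * A / ε) ^ 2 ≤ k := by
    refine (Nat.le_ceil _).trans ?_
    rw [hk]; push_cast; linarith
  have h2 : 28 * A / ε ≤ Real.sqrt k := Real.le_sqrt_of_sq_le h1
  have hs1 : 1 ≤ Real.sqrt k := by rw [Real.one_le_sqrt]; linarith
  have hs2 : Real.sqrt k * Real.sqrt k = k := Real.mul_self_sqrt (by linarith)
  have h3 : Real.log k ≤ 2 * Real.sqrt k := by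
    have h4 : Real.log (Real.sqrt k) ≤ Real.sqrt k - 1 :=
      Real.log_le_sub_one_of_pos (by linarith)
    have h5 : Real.log k = 2 * Real.log (Real.sqrt k) := by
      rw [← hs2, Real.log_mul (by linarith) (by linarith), hs2]; ring
    linarith
  rw [div_le_iff₀ hε] at h2
  have h4 : 28 * A * Real.sqrt k ≤ k * ε := by nlinarith
  have h5 : (k:ℝ) * ε ≤ 2 * ((k - 1) * ε) := by nlinarith
  nlinarith

/-- `k` is about `κ log n` -/
lemma choose_delta {A δ d : ℝ} (hA : 0 < A) (hδ : 0 < δ) (hd : 2 ≤ d) : ∃ B : ℝ, 0 < B ∧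
    ∀ n : ℕ, 1 ≤ n → ∃ k : ℕ, 2 ≤ k ∧ 2 * (A * (1 + Real.log (n * k))) ≤ (k - 1) * B ∧
      d ^ k ≤ d ^ 3 * (n : ℝ) ^ δ := by
  have hld : 0 < Real.log d := Real.log_pos (by linarith)
  set κ := δ / Real.log d with hκ
  have hκ0 : 0 < κ := by positivity
  refine ⟨2 * A * (2 + 1 / κ), by positivity, fun n hn => ?_⟩
  have hnr : (1:ℝ) ≤ n := by exact_mod_cast hn
  have hln : 0 ≤ Real.log n := Real.log_nonneg hnr
  set k : ℕ := ⌈κ * Real.log n⌉₊ + 2 with hk
  have h1 : κ * Real.log n + 2 ≤ k := by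
    rw [hk]; push_cast
    linarith [Nat.le_ceil (κ * Real.log n)]
  have h2 : (k : ℝ) ≤ κ * Real.log n + 3 := by
    rw [hk]; push_cast
    have := Nat.ceil_lt_add_one (show 0 ≤ κ * Real.log n by positivity)
    linarith
  have hk0 : (0:ℝ) < k := by
    have : 0 ≤ κ * Real.log n := by positivity
    linarith
  refine ⟨k, by omega, ?_, ?_⟩
  · have h3 : Real.log k ≤ k - 1 := Real.log_le_sub_one_of_pos hk0
    have h4 : Real.log n ≤ (k - 1) * (1 / κ) := by
      rw [mul_one_div, le_div_iff₀ hκ0]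
      linarith
    have h5 : (1:ℝ) ≤ k - 1 := by
      have : 0 ≤ κ * Real.log n := by positivity
      linarith
    rw [Real.log_mul (by linarith) hk0.ne']
    have h6 : 1 + (Real.log n + Real.log k) ≤ (k - 1) * (2 + 1 / κ) := by linarith
    have h7 := mul_le_mul_of_nonneg_left h6 (show 0 ≤ 2 * A by linarith)
    nlinarith
  · have h3 : d ^ k = Real.exp (k * Real.log d) := by
      rw [mul_comm, Real.exp_mul, Real.exp_log (by linarith), Real.rpow_natCast]
    have h4 : d ^ 3 * (n : ℝ) ^ δ = Real.exp (3 * Real.log d + δ * Real.log n) := by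
      rw [Real.exp_add, Real.rpow_def_of_pos (by linarith)]
      congr 1
      · rw [mul_comm, Real.exp_mul, Real.exp_log (by linarith)]
        norm_cast
      · rw [mul_comm]
    rw [h3, h4]
    apply Real.exp_le_exp.mpr
    have h5 : κ * Real.log d = δ := by rw [hκ]; field_simp
    nlinarith

/-- the weighted sum of the squares of the numbers of zeros at the places -/
noncomputable def sqS {ι : Type v} (s : Finset ι) (D : ι → Place.{u}) (R : ι → ℕ) : ℝ :=
  ∑ i ∈ s, (R i : ℝ) ^ 2 * Real.log (D i).p / ((D i).e * (D i).q)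

lemma sqS_nonneg {ι : Type v} (s : Finset ι) (D : ι → Place.{u}) (R : ι → ℕ) :
    0 ≤ sqS s D R := by
  unfold sqS
  refine Finset.sum_nonneg fun i _ => ?_
  have : 0 ≤ Real.log (D i).p := Real.log_natCast_nonneg _
  positivity

lemma lin_le_sq {ι : Type v} (s : Finset ι) (D : ι → Place.{u}) (R : ι → ℕ)
    (h : ∀ i ∈ s, (D i).q ≤ R i) : placeLin s D R ≤ sqS s D R := by
  unfold placeLin sqS
  refine Finset.sum_le_sum fun i hi => ?_
  have hq : (2:ℝ) ≤ (D i).q := by
    rw [← Place.toLoc_q]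
    exact_mod_cast (D i).toLoc.two_le_q
  have hR : ((D i).q : ℝ) ≤ R i := by exact_mod_cast h i hi
  have he : (0:ℝ) < (D i).e := by exact_mod_cast (D i).he
  have hl : 0 ≤ Real.log (D i).p := Real.log_natCast_nonneg _
  rw [div_le_div_iff₀ he (by positivity)]
  have h1 : 0 ≤ (R i : ℝ) * Real.log (D i).p * (D i).e := by positivity
  nlinarith

section

variable {K : Type*} [Field K] [NumberField K]

/-- zeros of the minimal polynomial in a field -/
lemma aeval_minpoly_int {F : Type*} [Field F] [CharZero F] {α : K} (hα : IsIntegral ℤ α) {x : F}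
    (hx : aeval x (minpoly ℚ α) = 0) : aeval x (minpoly ℤ α) = 0 := by
  rw [minpoly.isIntegrallyClosed_eq_field_fractions' ℚ hα, aeval_def, eval₂_map] at hx
  rw [aeval_def, ← hx]
  congr 1
  exact RingHom.ext_int _ _

/-- `Y` consists of conjugates of `α`, no two of which have the same image under an iterate -/
def Conj (f : ℤ[X]) (α : K) {F : Type u} [Field F] [CharZero F] (Y : Finset F) : Prop :=
  (∀ x ∈ Y, aeval x (minpoly ℚ α) = 0) ∧
    ∀ x ∈ Y, ∀ y ∈ Y, ∀ m : ℕ, (fun z : F => aeval z f)^[m] x = (fun z : F => aeval z f)^[m] y →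
      x = y

theorem place_main (f : ℤ[X]) (hf : f.Monic) (hq : 2 ≤ f.natDegree) {G : ℂ → ℝ} {C : ℝ}
    (hC : 0 ≤ C) (hG0 : ∀ z, 0 ≤ G z) (hG1 : ∀ z : ℂ, Real.posLog ‖z‖ ≤ G z + C)
    (hG2 : ∀ z : ℂ, G (aeval z f) = f.natDegree * G z)
    {α : K} (hα : IsIntegral ℤ α) (hw : Function.Injective fun n : ℕ => (ph f)^[n] α)
    {ι : Type v} (s : Finset ι) (D : ι → Place.{u}) (hinj : Set.InjOn (fun i => (D i).p) s)
    (Y : ∀ i, Finset (D i).K) (hY : ∀ i ∈ s, Conj f α (Y i)) (k : ℕ) (hk : 1 ≤ k) (n : ℕ)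
    (hn : n = (minpoly ℚ α).natDegree) :
    k * sqS s D (fun i => (Y i).card) ≤ placeLin s D (fun i => (Y i).card) +
      (2 + 4 * (f.natDegree * C)) * (n * (1 + Real.log (n * k))) +
      2 * (n ^ 2 * (f.natDegree ^ k * hG G α)) := by
  classical
  have hlc : |(minpoly ℤ α).leadingCoeff| = 1 := by
    rw [minpoly.monic hα, abs_one]
  have hYa : ∀ i ∈ s, ∀ x ∈ Y i, aeval x (minpoly ℤ α) = 0 := fun i hi x hx =>
    aeval_minpoly_int hα ((hY i hi).1 x hx)
  -- move the sets to the valuation rings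
  have hex : ∀ i, ∃ Z : Finset 𝒪[(D i).K], i ∈ s → Z.card = (Y i).card ∧
      ∀ x ∈ Z, (x : (D i).K) ∈ Y i := by
    intro i
    by_cases hi : i ∈ s
    · refine ⟨(Y i).attach.image fun x => ⟨x.1, mem_of_zero hlc (hYa i hi x.1 x.2)⟩,
        fun _ => ⟨?_, ?_⟩⟩
      · rw [Finset.card_image_of_injective, Finset.card_attach]
        intro x y hxy
        apply Subtype.ext
        have h5 := Subtype.ext_iff.mp hxy
        exact h5
      · intro x hx
        rw [Finset.mem_image] at hx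
        obtain ⟨y, _, rfl⟩ := hx
        exact y.2
    · exact ⟨∅, fun h => absurd h hi⟩
  choose Z hZ using hex
  have hZ1 : ∀ i ∈ s, ∀ x : 𝒪[(D i).K], x ∈ Z i → aeval x (minpoly ℤ α) = 0 := by
    intro i hi x hx
    have h1 := hYa i hi _ ((hZ i hi).2 x hx)
    rw [LZ.aeval_sub] at h1
    exact Subtype.val_injective h1
  have hit : ∀ i, ∀ (m : ℕ) (x : 𝒪[(D i).K]), (((ph f)^[m] x : 𝒪[(D i).K]) : (D i).K) =
      (fun z : (D i).K => aeval z f)^[m] (x : (D i).K) := by
    intro i m x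
    exact ph_hom (𝒪[(D i).K]).subtype f m x
  have hZ2 : ∀ i ∈ s, ∀ x : 𝒪[(D i).K], x ∈ Z i → ∀ y : 𝒪[(D i).K], y ∈ Z i →
      ∀ m : ℕ, (ph f)^[m] x = (ph f)^[m] y → x = y := by
    intro i hi x hx y hy m hxy
    have h1 := (hY i hi).2 _ ((hZ i hi).2 x hx) _ ((hZ i hi).2 y hy) m (by
      rw [← hit, ← hit, hxy])
    exact Subtype.val_injective h1
  have h := main_ineq f hf hq hC hG0 hG1 hG2 hα hw s (fun i => (D i).toLoc) hinj Z
    (fun i hi x hx => (mem_aRoots hα).mpr (hZ1 i hi x hx))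
    (fun i hi x hx y hy m hxy => hZ2 i hi x hx y hy m hxy) k hk n hn
  have e1 : ∑ i ∈ s, ((Z i).card : ℝ) ^ 2 / (((D i).toLoc).q : ℝ) / ((D i).toLoc).e *
      Real.log ((D i).toLoc).p = sqS s D (fun i => (Y i).card) := by
    unfold sqS
    refine Finset.sum_congr rfl fun i hi => ?_
    dsimp only
    rw [(hZ i hi).1, Place.toLoc_q]
    have e2 : ((D i).toLoc).e = (D i).e := rfl
    have e3 : ((D i).toLoc).p = (D i).p := rfl
    rw [e2, e3, div_div, mul_comm ((D i).q : ℝ), div_mul_eq_mul_div]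
  have e2 : ∑ i ∈ s, ((Z i).card : ℝ) / ((D i).toLoc).e * Real.log ((D i).toLoc).p =
      placeLin s D (fun i => (Y i).card) := by
    unfold placeLin
    refine Finset.sum_congr rfl fun i hi => ?_
    rw [(hZ i hi).1]
    have e2 : ((D i).toLoc).e = (D i).e := rfl
    have e3 : ((D i).toLoc).p = (D i).p := rfl
    rw [e2, e3, div_mul_eq_mul_div]
  rw [← e1, ← e2]
  exact h

end

end Pool.Agent.Y642.DL
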