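import Mathlib
import Pool.Agent.Y642.DL.C

/-!
# The lower bounds for the canonical height
-/

set_option autoImplicit false

open Finset Polynomial Module Filter Topology NumberField ValuativeRel IntermediateField

universe u v

namespace Pool.Agent.Y642.DL

open Pool.Agent.H388SL Pool.Agent.H389R3.LR Pool.Agent.H389R3.LP Pool.Agent.W666.DL
  Pool.Agent.W666.DY Pool.Agent.Y642.LZ

/-- `h` is the canonical height -/
def IsCH (f : ℤ[X]) {K : Type*} [Field K] [NumberField K] (x : K) (h : ℝ) : Prop :=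
  Tendsto (fun m : ℕ => Height.logHeight₁ ((fun y : K => aeval y f)^[m] x) /
    ((finrank ℚ K : ℝ) * (f.natDegree : ℝ) ^ m)) atTop (𝓝 h)

/-- the inequality, for algebraic integers -/
theorem thm_one (f : ℤ[X]) (hf : f.Monic) (hq : 2 ≤ f.natDegree) : ∃ A : ℝ, 0 < A ∧
    ∀ (K : Type) [Field K] [NumberField K] (α : K), IsIntegral ℤ α →
      (Function.Injective fun m : ℕ => (fun y : K => aeval y f)^[m] α) →
      ∀ h : ℝ, IsCH f α h →
      ∀ (ι : Type v) (s : Finset ι) (D : ι → Place.{u}), Set.InjOn (fun i => (D i).p) s →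
      ∀ Y : ∀ i, Finset (D i).K, (∀ i ∈ s, Conj f α (Y i)) →
      ∀ k : ℕ, 1 ≤ k → k * sqS s D (fun i => (Y i).card) ≤ placeLin s D (fun i => (Y i).card) +
        A * ((minpoly ℚ α).natDegree * (1 + Real.log ((minpoly ℚ α).natDegree * k))) +
        2 * ((minpoly ℚ α).natDegree ^ 2 * (f.natDegree ^ k * h)) := by
  obtain ⟨G, C, hC, hG0, hGlim, hGC, hG2, _⟩ := exists_green f hf hq
  have hG1 : ∀ z : ℂ, Real.posLog ‖z‖ ≤ G z + C := by
    intro z
    have := (abs_le.mp (hGC z)).2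
    linarith
  refine ⟨2 + 4 * (f.natDegree * C), by positivity, ?_⟩
  intro K _ _ α hα hw h hh ι s D hinj Y hY k hk
  have h1 := place_main f hf hq hC hG0 hG1 hG2 hα hw s D hinj Y hY k hk _ rfl
  have h2 := tendsto_nhds_unique hh (can_height hf hq hGlim α)
  have h3 : hG G α ≤ h := by
    rw [h2]
    unfold hG
    exact div_le_div_of_nonneg_right (by linarith [HF_nonneg α]) (Nat.cast_nonneg _)
  refine h1.trans ?_
  have h4 : (0:ℝ) ≤ (minpoly ℚ α).natDegree ^ 2 * f.natDegree ^ k := by positivity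
  have h5 := mul_le_mul_of_nonneg_left h3 h4
  linarith

/-- points which are not integral -/
lemma nonint {f : ℤ[X]} (hf : f.Monic) (hq : 2 ≤ f.natDegree) {K : Type*} [Field K] [NumberField K]
    {α : K} (hα : ¬ IsIntegral ℤ α) {h : ℝ} (hh : IsCH f α h) :
    Real.log 2 / finrank ℚ K ≤ h := by
  obtain ⟨G, C, hC, hG0, hGlim, hGC, hG2, _⟩ := exists_green f hf hq
  rw [tendsto_nhds_unique hh (can_height hf hq hGlim α)]
  refine div_le_div_of_nonneg_right ?_ (Nat.cast_nonneg _)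
  have h1 := HF_nonint hα
  have h2 : 0 ≤ ∑ σ : K →ₐ[ℚ] ℂ, G (σ α) := Finset.sum_nonneg fun σ _ => hG0 _
  linarith

lemma exists_CH {f : ℤ[X]} (hf : f.Monic) (hq : 2 ≤ f.natDegree) {K : Type*} [Field K]
    [NumberField K] (α : K) : ∃ h : ℝ, IsCH f α h := by
  obtain ⟨G, C, hC, hG0, hGlim, hGC, hG2, _⟩ := exists_green f hf hq
  exact ⟨_, can_height hf hq hGlim α⟩

lemma natDegree_gen {K : Type*} [Field K] [NumberField K] {α : K} (hgen : ℚ⟮α⟯ = ⊤) :
    (minpoly ℚ α).natDegree = finrank ℚ K := by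
  rw [← adjoin.finrank (Algebra.IsIntegral.isIntegral (R := ℚ) α), hgen]
  exact finrank_top'

/-- at least `ε √(n log n)` conjugates -/
theorem thm_two (f : ℤ[X]) (hf : f.Monic) (hq : 2 ≤ f.natDegree) (ε : ℝ) (hε : 0 < ε) :
    ∃ c : ℝ, 0 < c ∧
    ∀ (K : Type) [Field K] [NumberField K] (α : K), ℚ⟮α⟯ = ⊤ →
      (Function.Injective fun m : ℕ => (fun y : K => aeval y f)^[m] α) →
      ∀ h : ℝ, IsCH f α h →
      ∀ (ι : Type v) (s : Finset ι) (D : ι → Place.{u}), Set.InjOn (fun i => (D i).p) s →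
      ∀ Y : ∀ i, Finset (D i).K, (∀ i ∈ s, Conj f α (Y i)) → (∀ i ∈ s, (D i).q ≤ (Y i).card) →
      ε * (finrank ℚ K * Real.log (finrank ℚ K + 1)) ≤ sqS s D (fun i => (Y i).card) →
      c / finrank ℚ K ≤ h ∧ (IsIntegral ℤ α →
        c * sqS s D (fun i => (Y i).card) / (finrank ℚ K : ℝ) ^ 2 ≤ h) := by
  obtain ⟨A, hA, hmain⟩ := thm_one.{u, v} f hf hq
  obtain ⟨k, hk2, hkA⟩ := choose_eps hA hε
  have hd : (2:ℝ) ≤ f.natDegree := by exact_mod_cast hq
  set c0 : ℝ := 1 / (4 * f.natDegree ^ k) with hc0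
  have hc0p : 0 < c0 := by positivity
  have hl2 := Real.log_two_gt_d9
  refine ⟨min c0 (min (c0 * ε / 2) (1 / 2)), by positivity, ?_⟩
  set c := min c0 (min (c0 * ε / 2) (1 / 2)) with hc
  have hcc0 : c ≤ c0 := min_le_left _ _
  have hcc1 : c ≤ c0 * ε / 2 := (min_le_right _ _).trans (min_le_left _ _)
  have hcc2 : c ≤ 1 / 2 := (min_le_right _ _).trans (min_le_right _ _)
  intro K _ _ α hgen hw h hh ι s D hinj Y hY hYq hS
  set n := finrank ℚ K with hn
  have hn1 : (1:ℝ) ≤ n := by exact_mod_cast (finrank_pos : 0 < finrank ℚ K)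
  have hn0 : (0:ℝ) < n := by linarith
  set S := sqS s D (fun i => (Y i).card) with hSdef
  have hS0 : 0 ≤ S := sqS_nonneg _ _ _
  by_cases hα : IsIntegral ℤ α
  · have h1 := hmain K α hα hw h hh ι s D hinj Y hY k (by omega)
    rw [natDegree_gen hgen] at h1
    have h2 := lin_le_sq s D (fun i => (Y i).card) hYq
    rw [← hSdef] at h1 h2
    rw [← hn] at h1
    have hkr : (2:ℝ) ≤ k := by exact_mod_cast hk2
    have hL : Real.log 2 ≤ Real.log (n + 1) := Real.log_le_log (by norm_num) (by linarith)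
    have hLn : Real.log n ≤ Real.log (n + 1) := Real.log_le_log hn0 (by linarith)
    have hlk : 0 ≤ Real.log k := Real.log_nonneg (by linarith)
    have h3 : 1 + Real.log (n * k) ≤ (3 + 2 * Real.log k) * Real.log (n + 1) := by
      rw [Real.log_mul hn0.ne' (by linarith)]
      nlinarith
    have hL0 : 0 < Real.log (n + 1) := by linarith
    have h4 : 2 * (A * (n * (1 + Real.log (n * k)))) ≤ (k - 1) * S := by
      have h5 : A * n * (1 + Real.log (n * k)) ≤ A * n * ((3 + 2 * Real.log k) * Real.log (n + 1)) :=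
        mul_le_mul_of_nonneg_left h3 (by positivity)
      have h6 : (2 * A * (3 + 2 * Real.log k)) * (n * Real.log (n + 1)) ≤
          ((k - 1) * ε) * (n * Real.log (n + 1)) :=
        mul_le_mul_of_nonneg_right hkA (by positivity)
      have h7 : (k - 1) * (ε * (n * Real.log (n + 1))) ≤ (k - 1) * S :=
        mul_le_mul_of_nonneg_left hS (by linarith)
      nlinarith
    have h5 : S ≤ 4 * (n ^ 2 * (f.natDegree ^ k * h)) := by nlinarith
    have h6 : c0 * S / (n : ℝ) ^ 2 ≤ h := by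
      rw [div_le_iff₀ (by positivity), hc0, one_div, inv_mul_le_iff₀ (by positivity)]
      nlinarith
    have h7 : c * S / (n : ℝ) ^ 2 ≤ c0 * S / (n : ℝ) ^ 2 :=
      div_le_div_of_nonneg_right (mul_le_mul_of_nonneg_right hcc0 hS0) (by positivity)
    refine ⟨?_, fun _ => h7.trans h6⟩
    refine le_trans ?_ h6
    rw [div_le_div_iff₀ hn0 (by positivity)]
    have h8 : ε / 2 * n ≤ S := by
      have h9 : (1:ℝ) / 2 ≤ Real.log (n + 1) := by linarith
      have h10 : n * (1 / 2) ≤ n * Real.log (n + 1) := mul_le_mul_of_nonneg_left h9 hn0.le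
      have h11 := mul_le_mul_of_nonneg_left h10 hε.le
      linarith
    have h9 : c * n ≤ c0 * S := by
      have h10 : c * n ≤ c0 * ε / 2 * n := mul_le_mul_of_nonneg_right hcc1 hn0.le
      have h11 := mul_le_mul_of_nonneg_left h8 hc0p.le
      linarith
    nlinarith
  · have h1 := nonint hf hq hα hh
    refine ⟨?_, fun h => absurd h hα⟩
    refine le_trans ?_ h1
    exact div_le_div_of_nonneg_right (by linarith) hn0.le

/-- at least `B √n` conjugates -/
theorem thm_three (f : ℤ[X]) (hf : f.Monic) (hq : 2 ≤ f.natDegree) (δ : ℝ) (hδ : 0 < δ) :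
    ∃ B c : ℝ, 0 < B ∧ 0 < c ∧
    ∀ (K : Type) [Field K] [NumberField K] (α : K), ℚ⟮α⟯ = ⊤ →
      (Function.Injective fun m : ℕ => (fun y : K => aeval y f)^[m] α) →
      ∀ h : ℝ, IsCH f α h →
      ∀ (ι : Type v) (s : Finset ι) (D : ι → Place.{u}), Set.InjOn (fun i => (D i).p) s →
      ∀ Y : ∀ i, Finset (D i).K, (∀ i ∈ s, Conj f α (Y i)) → (∀ i ∈ s, (D i).q ≤ (Y i).card) →
      B * finrank ℚ K ≤ sqS s D (fun i => (Y i).card) →
      c / (finrank ℚ K : ℝ) ^ (1 + δ) ≤ h := by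
  obtain ⟨A, hA, hmain⟩ := thm_one.{u, v} f hf hq
  have hd : (2:ℝ) ≤ f.natDegree := by exact_mod_cast hq
  obtain ⟨B, hB, hk⟩ := choose_delta hA hδ hd
  have hl2 := Real.log_two_gt_d9
  set c0 : ℝ := B / (4 * f.natDegree ^ 3) with hc0
  have hc0p : 0 < c0 := by positivity
  refine ⟨B, min c0 (1 / 2), hB, by positivity, ?_⟩
  set c := min c0 (1 / 2) with hc
  intro K _ _ α hgen hw h hh ι s D hinj Y hY hYq hS
  set n := finrank ℚ K with hn
  have hnpos : 0 < n := finrank_pos
  have hn1 : (1:ℝ) ≤ n := by exact_mod_cast hnpos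
  have hn0 : (0:ℝ) < n := by linarith
  have hnd : (1:ℝ) ≤ (n : ℝ) ^ δ := Real.one_le_rpow hn1 hδ.le
  rw [Real.rpow_add hn0, Real.rpow_one]
  by_cases hα : IsIntegral ℤ α
  · obtain ⟨k, hk2, hkA, hkd⟩ := hk n hnpos
    have h1 := hmain K α hα hw h hh ι s D hinj Y hY k (by omega)
    rw [natDegree_gen hgen] at h1
    have h2 := lin_le_sq s D (fun i => (Y i).card) hYq
    set S := sqS s D (fun i => (Y i).card) with hSdef
    rw [← hn] at h1
    have hkr : (2:ℝ) ≤ k := by exact_mod_cast hk2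
    have h4 : 2 * (A * (n * (1 + Real.log (n * k)))) ≤ (k - 1) * S := by
      have h5 := mul_le_mul_of_nonneg_left hkA hn0.le
      have h6 := mul_le_mul_of_nonneg_left hS (show (0:ℝ) ≤ k - 1 by linarith)
      nlinarith
    have hS0 : 0 ≤ S := sqS_nonneg _ _ _
    have h5 : S ≤ 4 * (n ^ 2 * (f.natDegree ^ k * h)) := by nlinarith
    have h6 : B ≤ 4 * (n * (f.natDegree ^ k * h)) := by
      have h7 : n * B ≤ n * (4 * (n * (f.natDegree ^ k * h))) := by nlinarith
      exact le_of_mul_le_mul_left h7 hn0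
    have h0 : 0 < h := by
      by_contra hcon
      push Not at hcon
      have h7 : (n:ℝ) * (f.natDegree ^ k * h) ≤ 0 := by
        have : (0:ℝ) ≤ n * f.natDegree ^ k := by positivity
        nlinarith
      linarith
    have h7 : (f.natDegree : ℝ) ^ k * h ≤ (f.natDegree : ℝ) ^ 3 * (n : ℝ) ^ δ * h :=
      mul_le_mul_of_nonneg_right hkd h0.le
    have h8 : c0 ≤ h * (n * (n : ℝ) ^ δ) := by
      rw [hc0, div_le_iff₀ (by positivity)]
      have h9 := mul_le_mul_of_nonneg_left h7 hn0.le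
      nlinarith
    rw [div_le_iff₀ (by positivity)]
    exact (min_le_left _ _).trans h8
  · have h1 := nonint hf hq hα hh
    rw [← hn] at h1
    refine le_trans ?_ h1
    have hcc2 : c ≤ 1 / 2 := min_le_right _ _
    rw [div_le_div_iff₀ (by positivity) hn0]
    have h2 : c ≤ Real.log 2 := by linarith
    have h3 : 0 ≤ Real.log 2 := by linarith
    have h4 : c * n ≤ Real.log 2 * n := mul_le_mul_of_nonneg_right h2 hn0.le
    have h5 : Real.log 2 * n * 1 ≤ Real.log 2 * n * (n : ℝ) ^ δ :=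
      mul_le_mul_of_nonneg_left hnd (by positivity)
    nlinarith

end Pool.Agent.Y642.DL
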